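import Mathlib

namespace Pool.Agent.ACP

/-- The elementary Andrews-Curtis moves on pairs of elements of a group. -/
inductive Move {G : Type} [Group G] : G × G → G × G → Prop
  | mulR₁ (u v : G) : Move (u, v) (u * v, v)
  | mulRi₁ (u v : G) : Move (u, v) (u * v⁻¹, v)
  | mulL₁ (u v : G) : Move (u, v) (v * u, v)
  | mulLi₁ (u v : G) : Move (u, v) (v⁻¹ * u, v)
  | mulR₂ (u v : G) : Move (u, v) (u, v * u)
  | mulRi₂ (u v : G) : Move (u, v) (u, v * u⁻¹)
  | mulL₂ (u v : G) : Move (u, v) (u, u * v)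
  | mulLi₂ (u v : G) : Move (u, v) (u, u⁻¹ * v)
  | inv₁ (u v : G) : Move (u, v) (u⁻¹, v)
  | inv₂ (u v : G) : Move (u, v) (u, v⁻¹)
  | conj₁ (u v w : G) : Move (u, v) (w⁻¹ * u * w, v)
  | conj₂ (u v w : G) : Move (u, v) (u, w⁻¹ * v * w)

/-- Andrews-Curtis equivalence: a finite sequence of elementary moves. -/
def ACEquiv {G : Type} [Group G] (p q : G × G) : Prop := Relation.ReflTransGen Move p q

section
variable {G : Type} [Group G]

theorem ACEquiv.refl (p : G × G) : ACEquiv p p := Relation.ReflTransGen.refl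

theorem ACEquiv.trans {p q r : G × G} (h : ACEquiv p q) (h' : ACEquiv q r) : ACEquiv p r :=
  Relation.ReflTransGen.trans h h'

theorem ACEquiv.of (p q : G × G) (h : Move p q) : ACEquiv p q := Relation.ReflTransGen.single h

theorem ACEquiv.of' {p q q' : G × G} (h : Move p q) (e : q = q') : ACEquiv p q' := e ▸ ACEquiv.of _ _ h

theorem Move.symm {p q : G × G} (h : Move p q) : ACEquiv q p := by
  cases h with
  | mulR₁ u v => exact ACEquiv.of' (Move.mulRi₁ _ _) (by simp)
  | mulRi₁ u v => exact ACEquiv.of' (Move.mulR₁ _ _) (by simp)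
  | mulL₁ u v => exact ACEquiv.of' (Move.mulLi₁ _ _) (by simp)
  | mulLi₁ u v => exact ACEquiv.of' (Move.mulL₁ _ _) (by simp)
  | mulR₂ u v => exact ACEquiv.of' (Move.mulRi₂ _ _) (by simp)
  | mulRi₂ u v => exact ACEquiv.of' (Move.mulR₂ _ _) (by simp)
  | mulL₂ u v => exact ACEquiv.of' (Move.mulLi₂ _ _) (by simp)
  | mulLi₂ u v => exact ACEquiv.of' (Move.mulL₂ _ _) (by simp)
  | inv₁ u v => exact ACEquiv.of' (Move.inv₁ _ _) (by simp)
  | inv₂ u v => exact ACEquiv.of' (Move.inv₂ _ _) (by simp)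
  | conj₁ u v w => exact ACEquiv.of' (Move.conj₁ _ _ w⁻¹) (by simp [mul_assoc])
  | conj₂ u v w => exact ACEquiv.of' (Move.conj₂ _ _ w⁻¹) (by simp [mul_assoc])

theorem ACEquiv.symm {p q : G × G} (h : ACEquiv p q) : ACEquiv q p := by
  induction h with
  | refl => exact ACEquiv.refl _
  | tail _ h2 ih => exact (Move.symm h2).trans ih

theorem conj₁ (u v w : G) : ACEquiv (u, v) (w * u * w⁻¹, v) :=
  ACEquiv.of' (Move.conj₁ _ _ w⁻¹) (by simp)

theorem conj₂ (u v w : G) : ACEquiv (u, v) (u, w * v * w⁻¹) :=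
  ACEquiv.of' (Move.conj₂ _ _ w⁻¹) (by simp)

theorem inv₁ (u v : G) : ACEquiv (u, v) (u⁻¹, v) := ACEquiv.of _ _ (Move.inv₁ _ _)
theorem inv₂ (u v : G) : ACEquiv (u, v) (u, v⁻¹) := ACEquiv.of _ _ (Move.inv₂ _ _)

theorem swap (u v : G) : ACEquiv (u, v) (v, u) := by
  have h1 : ACEquiv (u, v) (u * v, v) := ACEquiv.of _ _ (Move.mulR₁ _ _)
  have h2 : ACEquiv (u * v, v) (u * v, v⁻¹ * u⁻¹ * v) := ACEquiv.of' (Move.mulLi₂ _ _) (by simp [mul_assoc])
  have h3 : ACEquiv (u * v, v⁻¹ * u⁻¹ * v) (u * v, u⁻¹) :=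
    (conj₂ _ _ v).trans (by simp [mul_assoc]; exact ACEquiv.refl _)
  have h4 : ACEquiv (u * v, u⁻¹) (v, u⁻¹) := ACEquiv.of' (Move.mulL₁ _ _) (by simp)
  have h5 : ACEquiv (v, u⁻¹) (v, u) := (inv₂ _ _).trans (by simp; exact ACEquiv.refl _)
  exact h1.trans (h2.trans (h3.trans (h4.trans h5)))

/-- multiply the first by an element of the normal closure of the second -/
theorem mul_closure (u v c : G) (hc : c ∈ Subgroup.normalClosure {v}) :
    ACEquiv (u, v) (u * c, v) := by
  have key : ∀ (g : G) (w : G), ACEquiv (w, v) (w * (g * v * g⁻¹), v) := by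
    intro g w
    have h1 : ACEquiv (w, v) (w, g * v * g⁻¹) := conj₂ _ _ g
    have h2 : ACEquiv (w, g * v * g⁻¹) (w * (g * v * g⁻¹), g * v * g⁻¹) :=
      ACEquiv.of _ _ (Move.mulR₁ _ _)
    have h3 : ACEquiv (w * (g * v * g⁻¹), g * v * g⁻¹) (w * (g * v * g⁻¹), v) :=
      ACEquiv.of' (Move.conj₂ _ _ g) (by simp [mul_assoc])
    exact h1.trans (h2.trans h3)
  have main : ∀ c ∈ Subgroup.normalClosure {v}, ∀ w, ACEquiv (w, v) (w * c, v) := by
    intro c hc
    refine Subgroup.closure_induction (p := fun c _ => ∀ w, ACEquiv (w, v) (w * c, v)) ?_ ?_ ?_ ?_ hc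
    · intro x hx w
      rw [Group.mem_conjugatesOfSet_iff] at hx
      obtain ⟨a, ha, hax⟩ := hx
      rw [Set.mem_singleton_iff] at ha
      subst ha
      rw [isConj_iff] at hax
      obtain ⟨g, hg⟩ := hax
      rw [← hg]
      exact key g w
    · intro w
      simpa using ACEquiv.refl (w, v)
    · intro x y _ _ hx hy w
      have := (hx w).trans (hy (w * x))
      simpa [mul_assoc] using this
    · intro x _ hx w
      have := (hx (w * x⁻¹)).symm
      simpa using this
  exact main c hc u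

theorem quot₁ {u u' v : G} (h : ∀ {H : Type} [Group H] (f : G →* H), f v = 1 → f u = f u') :
    ACEquiv (u, v) (u', v) := by
  have h1 : u⁻¹ * u' ∈ Subgroup.normalClosure {v} := by
    have h2 := h (QuotientGroup.mk' (Subgroup.normalClosure {v})) (by
      rw [QuotientGroup.mk'_apply, QuotientGroup.eq_one_iff]
      exact Subgroup.subset_normalClosure (Set.mem_singleton _))
    simpa [QuotientGroup.mk'_apply] using QuotientGroup.eq.mp h2
  have := mul_closure u v _ h1
  simpa using this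

theorem quot₂ {u v v' : G} (h : ∀ {H : Type} [Group H] (f : G →* H), f u = 1 → f v = f v') :
    ACEquiv (u, v) (u, v') :=
  (swap _ _).trans ((quot₁ h).trans (swap _ _))

theorem map {G' : Type} [Group G'] (φ : G →* G') {p q : G × G} (h : ACEquiv p q) :
    ACEquiv (φ p.1, φ p.2) (φ q.1, φ q.2) := by
  induction h with
  | refl => exact ACEquiv.refl _
  | tail _ h2 ih =>
    refine ih.trans ?_
    cases h2 with
    | mulR₁ u v => exact ACEquiv.of' (Move.mulR₁ _ _) (by simp)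
    | mulRi₁ u v => exact ACEquiv.of' (Move.mulRi₁ _ _) (by simp)
    | mulL₁ u v => exact ACEquiv.of' (Move.mulL₁ _ _) (by simp)
    | mulLi₁ u v => exact ACEquiv.of' (Move.mulLi₁ _ _) (by simp)
    | mulR₂ u v => exact ACEquiv.of' (Move.mulR₂ _ _) (by simp)
    | mulRi₂ u v => exact ACEquiv.of' (Move.mulRi₂ _ _) (by simp)
    | mulL₂ u v => exact ACEquiv.of' (Move.mulL₂ _ _) (by simp)
    | mulLi₂ u v => exact ACEquiv.of' (Move.mulLi₂ _ _) (by simp)
    | inv₁ u v => exact ACEquiv.of' (Move.inv₁ _ _) (by simp)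
    | inv₂ u v => exact ACEquiv.of' (Move.inv₂ _ _) (by simp)
    | conj₁ u v w => exact ACEquiv.of' (Move.conj₁ _ _ (φ w)) (by simp)
    | conj₂ u v w => exact ACEquiv.of' (Move.conj₂ _ _ (φ w)) (by simp)

end

end Pool.Agent.ACP
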