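import Mathlib

/-! Group identities: `a` is the image of `y`, `b` the image of `e`. -/
namespace Pool.Agent.ACP

variable {H : Type} [Group H] {a b : H}

/-- `b a^(n k) = a^((n+1) k) b` from `b a^n b⁻¹ = a^(n+1)` -/
theorem bs_pow {n : ℤ} (h : b * a ^ n * b⁻¹ = a ^ (n + 1)) (k : ℤ) :
    b * a ^ (n * k) = a ^ ((n + 1) * k) * b := by
  have h1 : SemiconjBy b (a ^ n) (a ^ (n + 1)) := by
    show b * a ^ n = a ^ (n + 1) * b
    rw [← h]; group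
  have h2 := h1.zpow_right k
  rw [← zpow_mul, ← zpow_mul] at h2
  exact h2

/-- shift of the exponents -/
theorem bs_shift {n : ℤ} (h : b * a ^ n * b⁻¹ = a ^ (n + 1)) (s t k : ℤ) :
    a ^ s * b * a ^ t = a ^ (s - (n + 1) * k) * b * a ^ (t + n * k) := by
  have h2 := bs_pow h k
  calc a ^ s * b * a ^ t = a ^ (s - (n + 1) * k) * (a ^ ((n + 1) * k) * b) * a ^ t := by
        rw [zpow_sub]; group
    _ = a ^ (s - (n + 1) * k) * (b * a ^ (n * k)) * a ^ t := by rw [h2]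
    _ = a ^ (s - (n + 1) * k) * b * a ^ (t + n * k) := by rw [zpow_add]; group

/-- normal form -/
theorem bs_norm {n : ℤ} (h : b * a ^ n * b⁻¹ = a ^ (n + 1)) (s t : ℤ) :
    a ^ s * b * a ^ t = a ^ (-((n + 1) * t + n * s)) * b * a ^ ((n + 1) * t + n * s) := by
  rw [bs_shift h s t (s + t)]
  congr 2
  · congr 1; ring
  · ring

/-- `m` and `m - n (n+1) k` -/
theorem bs_mod {n : ℤ} (h : b * a ^ n * b⁻¹ = a ^ (n + 1)) (m k : ℤ) :
    a ^ (-((n + 1) ^ 2 * k)) * (a ^ (-m) * b * a ^ m * b ^ (-2 : ℤ)) * a ^ ((n + 1) ^ 2 * k)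
      = a ^ (-(m - n * (n + 1) * k)) * b * a ^ (m - n * (n + 1) * k) * b ^ (-2 : ℤ) := by
  have h1 : b * a ^ (n ^ 2 * k) = a ^ (n * (n + 1) * k) * b := by
    have := bs_pow h (n * k)
    rw [show n * (n * k) = n ^ 2 * k by ring, show (n + 1) * (n * k) = n * (n + 1) * k by ring] at this
    exact this
  have h2 : b * a ^ (n * (n + 1) * k) = a ^ ((n + 1) ^ 2 * k) * b := by
    have := bs_pow h ((n + 1) * k)
    rw [show n * ((n + 1) * k) = n * (n + 1) * k by ring,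
      show (n + 1) * ((n + 1) * k) = (n + 1) ^ 2 * k by ring] at this
    exact this
  have h3 : b ^ (-2 : ℤ) * a ^ ((n + 1) ^ 2 * k) = a ^ (n ^ 2 * k) * b ^ (-2 : ℤ) := by
    have h4 : b ^ (2 : ℤ) * a ^ (n ^ 2 * k) = a ^ ((n + 1) ^ 2 * k) * b ^ (2 : ℤ) := by
      calc b ^ (2 : ℤ) * a ^ (n ^ 2 * k) = b * (b * a ^ (n ^ 2 * k)) := by
            rw [zpow_two, mul_assoc]
        _ = b * a ^ (n * (n + 1) * k) * b := by rw [h1, ← mul_assoc]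
        _ = a ^ ((n + 1) ^ 2 * k) * b * b := by rw [h2]
        _ = a ^ ((n + 1) ^ 2 * k) * b ^ (2 : ℤ) := by rw [zpow_two, mul_assoc]
    calc b ^ (-2 : ℤ) * a ^ ((n + 1) ^ 2 * k)
        = b ^ (-2 : ℤ) * (a ^ ((n + 1) ^ 2 * k) * b ^ (2 : ℤ)) * b ^ (-2 : ℤ) := by group
      _ = b ^ (-2 : ℤ) * (b ^ (2 : ℤ) * a ^ (n ^ 2 * k)) * b ^ (-2 : ℤ) := by rw [h4]
      _ = a ^ (n ^ 2 * k) * b ^ (-2 : ℤ) := by group
  have h5 := bs_norm h (-((n + 1) ^ 2 * k) - m) (m + n ^ 2 * k)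
  rw [show (n + 1) * (m + n ^ 2 * k) + n * (-((n + 1) ^ 2 * k) - m) = m - n * (n + 1) * k by ring] at h5
  calc a ^ (-((n + 1) ^ 2 * k)) * (a ^ (-m) * b * a ^ m * b ^ (-2 : ℤ)) * a ^ ((n + 1) ^ 2 * k)
      = (a ^ (-((n + 1) ^ 2 * k)) * a ^ (-m)) * b * a ^ m * (b ^ (-2 : ℤ) * a ^ ((n + 1) ^ 2 * k)) := by
        simp only [mul_assoc]
    _ = (a ^ (-((n + 1) ^ 2 * k)) * a ^ (-m)) * b * a ^ m * (a ^ (n ^ 2 * k) * b ^ (-2 : ℤ)) := by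
        rw [h3]
    _ = (a ^ (-((n + 1) ^ 2 * k) - m) * b * a ^ (m + n ^ 2 * k)) * b ^ (-2 : ℤ) := by
        rw [← zpow_add, zpow_add a m, sub_eq_add_neg]; simp only [mul_assoc]
    _ = _ := by rw [h5]

/-- case `n ∣ m` -/
theorem case_n {n k : ℤ} (h : b * a ^ n * b⁻¹ = a ^ (n + 1)) :
    a ^ (-(n * k)) * b * a ^ (n * k) * b ^ (-2 : ℤ) = a ^ k * b⁻¹ := by
  have h1 := bs_pow h k
  calc a ^ (-(n * k)) * b * a ^ (n * k) * b ^ (-2 : ℤ)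
      = a ^ (-(n * k)) * (b * a ^ (n * k)) * b ^ (-2 : ℤ) := by simp only [mul_assoc]
    _ = a ^ (-(n * k)) * (a ^ ((n + 1) * k) * b) * b ^ (-2 : ℤ) := by rw [h1]
    _ = (a ^ (-(n * k)) * a ^ ((n + 1) * k)) * (b * b ^ (-2 : ℤ)) := by simp only [mul_assoc]
    _ = a ^ k * b⁻¹ := by
        rw [← zpow_add]; congr 1
        · congr 1; ring
        · group

/-- case `n + 1 ∣ m` -/
theorem case_n1 {n k : ℤ} (h : b * a ^ n * b⁻¹ = a ^ (n + 1)) :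
    b ^ (-2 : ℤ) * (a ^ (-((n + 1) * k)) * b * a ^ ((n + 1) * k) * b ^ (-2 : ℤ)) * (b ^ (-2 : ℤ))⁻¹
      = b⁻¹ * a ^ k := by
  have h1 := bs_pow h (-k)
  have h2 : a ^ (-((n + 1) * k)) * b = b * a ^ (-(n * k)) := by
    rw [show -((n + 1) * k) = (n + 1) * (-k) by ring, ← h1]; congr 2; ring
  calc b ^ (-2 : ℤ) * (a ^ (-((n + 1) * k)) * b * a ^ ((n + 1) * k) * b ^ (-2 : ℤ)) * (b ^ (-2 : ℤ))⁻¹
      = b ^ (-2 : ℤ) * (a ^ (-((n + 1) * k)) * b) * a ^ ((n + 1) * k) := by group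
    _ = b ^ (-2 : ℤ) * (b * a ^ (-(n * k))) * a ^ ((n + 1) * k) := by rw [h2]
    _ = (b ^ (-2 : ℤ) * b) * (a ^ (-(n * k)) * a ^ ((n + 1) * k)) := by simp only [mul_assoc]
    _ = b⁻¹ * a ^ k := by
        rw [← zpow_add]; congr 1
        · group
        · congr 1; ring

/-- `a^(-m k) b a^(m k) = b^(2^k)` -/
theorem bs2_pow {m : ℤ} (h : a ^ (-m) * b * a ^ m * b ^ (-2 : ℤ) = 1) (k : ℕ) :
    a ^ (-(m * k)) * b * a ^ (m * k) = b ^ ((2 : ℤ) ^ k) := by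
  have h0 : a ^ (-m) * b * a ^ m = b ^ (2 : ℤ) := by
    have : a ^ (-m) * b * a ^ m = (a ^ (-m) * b * a ^ m * b ^ (-2 : ℤ)) * b ^ (2 : ℤ) := by group
    rw [this, h, one_mul]
  induction k with
  | zero => simp
  | succ k ih =>
    have h1 : SemiconjBy (a ^ (-m)) b (b ^ (2 : ℤ)) := by
      show a ^ (-m) * b = b ^ (2 : ℤ) * a ^ (-m)
      rw [← h0]; group
    have h2 := h1.zpow_right ((2 : ℤ) ^ k)
    have h3 : a ^ (-m) * b ^ ((2 : ℤ) ^ k) * a ^ m = b ^ ((2 : ℤ) ^ (k + 1)) := by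
      have : a ^ (-m) * b ^ ((2 : ℤ) ^ k) = (b ^ (2 : ℤ)) ^ ((2 : ℤ) ^ k) * a ^ (-m) := h2
      rw [this, mul_assoc, ← zpow_add, ← zpow_mul]
      simp [pow_succ, mul_comm]
    rw [← h3, ← ih]
    push_cast
    rw [show -(m * ((k : ℤ) + 1)) = -m + -(m * k) by ring, show m * ((k : ℤ) + 1) = m * k + m by ring,
      zpow_add, zpow_add]
    simp only [mul_assoc]

end Pool.Agent.ACP
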