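import Mathlib

namespace Pool.Agent.ACP

variable {H : Type} [Group H] {A B : H}

/-- first step of the T case -/
theorem t_one {a b : ℤ} (h : A ^ b * B * A ^ a * B ^ (-2 : ℤ) = 1) :
    B⁻¹ * (B * A ^ (2 * b - 1) * B⁻¹ * A ^ (-(2 * b))) * B
      = A ^ (2 * b - 1) * (B * A ^ (-a)) ^ (-2 : ℤ) := by
  have h1 : B⁻¹ * A ^ b * B = B * A ^ (-a) := by
    have h2 : A ^ b * B * A ^ a = B ^ (2 : ℤ) := by
      have : A ^ b * B * A ^ a = (A ^ b * B * A ^ a * B ^ (-2 : ℤ)) * B ^ (2 : ℤ) := by group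
      rw [this, h, one_mul]
    have h3 : A ^ b * B = B ^ (2 : ℤ) * A ^ (-a) := by rw [← h2]; group
    rw [mul_assoc, h3, zpow_two]; group
  have h4 : (B * A ^ (-a)) ^ (-2 : ℤ) = B⁻¹ * A ^ (-(2 * b)) * B := by
    rw [← h1]
    have : (B⁻¹ * A ^ b * B) ^ (-2 : ℤ) = B⁻¹ * (A ^ b) ^ (-2 : ℤ) * B := by
      have := conj_zpow (a := B⁻¹) (b := A ^ b) (i := (-2 : ℤ))
      simpa using this
    rw [this, ← zpow_mul]
    congr 3; ring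
  rw [h4]
  group

/-- second step: `g y^(1-b) g y^a g⁻¹ y^(-a)` -/
theorem t_two {a b : ℤ} (h : A ^ (2 * b - 1) * B ^ (-2 : ℤ) = 1) :
    B⁻¹ * (A ^ b * B * A ^ a * B⁻¹ * A ^ (-a) * B⁻¹) * B
      = B * A ^ (1 - b) * B * A ^ a * B⁻¹ * A ^ (-a) := by
  have h1 : A ^ (2 * b - 1) = B * B := by
    have : A ^ (2 * b - 1) = (A ^ (2 * b - 1) * B ^ (-2 : ℤ)) * B ^ (2 : ℤ) := by group
    rw [this, h, one_mul, zpow_two]
  have h2 : A ^ b = B * B * A ^ (1 - b) := by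
    rw [← h1, ← zpow_add]; congr 1; ring
  rw [h2]
  group

/-- `y^(2b-1)` is central modulo `R3` -/
theorem t_central {b : ℤ} (h : A ^ b * B⁻¹ * A ^ (1 - b) * B⁻¹ = 1) (l : ℤ) :
    A ^ ((2 * b - 1) * l) * B = B * A ^ ((2 * b - 1) * l) := by
  have h1 : A ^ b = B * A ^ (b - 1) * B := by
    have : A ^ b = (A ^ b * B⁻¹ * A ^ (1 - b) * B⁻¹) * (B * A ^ (b - 1) * B) := by group
    rw [this, h, one_mul]
  have h2 : A ^ (2 * b - 1) = (B * A ^ (b - 1)) * (B * A ^ (b - 1)) := by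
    calc A ^ (2 * b - 1) = A ^ b * A ^ (b - 1) := by rw [← zpow_add]; congr 1; ring
      _ = _ := by rw [h1]; group
  have h3 : Commute (A ^ (2 * b - 1)) (B * A ^ (b - 1)) := by
    rw [h2]; exact (Commute.refl _).mul_left (Commute.refl _)
  have h4 : Commute (A ^ (2 * b - 1)) (A ^ (1 - b)) :=
    (Commute.refl A).zpow_zpow _ _
  have h5 : Commute (A ^ (2 * b - 1)) B := by
    have := h3.mul_right h4
    have e : B * A ^ (b - 1) * A ^ (1 - b) = B := by group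
    rwa [e] at this
  have h6 := h5.zpow_left l
  rw [← zpow_mul] at h6
  exact h6

theorem t_shift {a b : ℤ} (h : A ^ b * B⁻¹ * A ^ (1 - b) * B⁻¹ = 1) (l : ℤ) :
    B ^ (2 : ℤ) * A ^ a * B⁻¹ * A ^ (-a)
      = B ^ (2 : ℤ) * A ^ (a + (2 * b - 1) * l) * B⁻¹ * A ^ (-(a + (2 * b - 1) * l)) := by
  have h1 := t_central h l
  have h2 : A ^ ((2 * b - 1) * l) * B⁻¹ = B⁻¹ * A ^ ((2 * b - 1) * l) := by
    have : Commute (A ^ ((2 * b - 1) * l)) B := h1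
    exact this.inv_right
  calc B ^ (2 : ℤ) * A ^ a * B⁻¹ * A ^ (-a)
      = B ^ (2 : ℤ) * A ^ a * (B⁻¹ * A ^ ((2 * b - 1) * l)) * A ^ (-((2 * b - 1) * l)) * A ^ (-a) := by
        group
    _ = B ^ (2 : ℤ) * A ^ a * (A ^ ((2 * b - 1) * l) * B⁻¹) * A ^ (-((2 * b - 1) * l)) * A ^ (-a) := by
        rw [h2]
    _ = _ := by rw [neg_add, zpow_add, zpow_add]; group

/-- `a^k` conjugation -/
theorem t_pow {a : ℤ} (h : B ^ (2 : ℤ) * A ^ a * B⁻¹ * A ^ (-a) = 1) (k : ℕ) :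
    A ^ (a * k) * B * A ^ (-(a * k)) = B ^ ((2 : ℤ) ^ k) := by
  have h0 : A ^ a * B * A ^ (-a) = B ^ (2 : ℤ) := by
    have : A ^ a * B * A ^ (-a) = (B ^ (2 : ℤ) * A ^ a * B⁻¹ * A ^ (-a))⁻¹ * B ^ (2 : ℤ) := by group
    rw [this, h]; simp
  induction k with
  | zero => simp
  | succ k ih =>
    have h1 : SemiconjBy (A ^ a) B (B ^ (2 : ℤ)) := by
      show A ^ a * B = B ^ (2 : ℤ) * A ^ a
      rw [← h0]; group
    have h2 := h1.zpow_right ((2 : ℤ) ^ k)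
    have h3 : A ^ a * B ^ ((2 : ℤ) ^ k) * A ^ (-a) = B ^ ((2 : ℤ) ^ (k + 1)) := by
      have : A ^ a * B ^ ((2 : ℤ) ^ k) = (B ^ (2 : ℤ)) ^ ((2 : ℤ) ^ k) * A ^ a := h2
      rw [this, mul_assoc, ← zpow_add, ← zpow_mul]
      simp [pow_succ, mul_comm]
    rw [← h3, ← ih]
    push_cast
    rw [show -(a * ((k : ℤ) + 1)) = -(a * k) + -a by ring, show a * ((k : ℤ) + 1) = a + a * k by ring,
      zpow_add, zpow_add]
    simp only [mul_assoc]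

theorem t_case1 {a b : ℤ} (h : B ^ (2 : ℤ) * A ^ a * B⁻¹ * A ^ (-a) = 1) (k : ℕ) (hk : b - 1 = a * k) :
    A ^ b * B⁻¹ * A ^ (1 - b) * B⁻¹ = A * B ^ (-((2 : ℤ) ^ k + 1)) := by
  have h1 := t_pow h k
  have h2 : A ^ (b - 1) * B⁻¹ * A ^ (1 - b) = B ^ (-(2 : ℤ) ^ k) := by
    rw [zpow_neg, ← h1, hk, show (1 - b) = -(a * k) by rw [← hk]; ring]; group
  calc A ^ b * B⁻¹ * A ^ (1 - b) * B⁻¹ = A * (A ^ (b - 1) * B⁻¹ * A ^ (1 - b)) * B⁻¹ := by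
        rw [show b = 1 + (b - 1) by ring, zpow_add, zpow_one]; simp only [mul_assoc]
        congr 3; ring_nf
    _ = A * B ^ (-(2 : ℤ) ^ k) * B⁻¹ := by rw [h2]
    _ = _ := by rw [neg_add, zpow_add, mul_assoc]; simp

theorem t_case2 {a b : ℤ} (h : B ^ (2 : ℤ) * A ^ a * B⁻¹ * A ^ (-a) = 1) (k : ℕ) (hk : b = a * k) :
    B ^ ((2 : ℤ) ^ k) * (A ^ b * B⁻¹ * A ^ (1 - b) * B⁻¹) * (B ^ ((2 : ℤ) ^ k))⁻¹
      = A * B ^ (-((2 : ℤ) ^ k + 1)) := by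
  have h1 := t_pow h k
  have h2 : A ^ b * B⁻¹ * A ^ (- b) = B ^ (-(2 : ℤ) ^ k) := by
    rw [zpow_neg B ((2 : ℤ) ^ k), ← h1, hk]; group
  calc B ^ ((2 : ℤ) ^ k) * (A ^ b * B⁻¹ * A ^ (1 - b) * B⁻¹) * (B ^ ((2 : ℤ) ^ k))⁻¹
      = B ^ ((2 : ℤ) ^ k) * ((A ^ b * B⁻¹ * A ^ (- b)) * A * B⁻¹) * (B ^ ((2 : ℤ) ^ k))⁻¹ := by
        rw [show (1 - b) = -b + 1 by ring, zpow_add, zpow_one]; simp only [mul_assoc]
    _ = B ^ ((2 : ℤ) ^ k) * (B ^ (-(2 : ℤ) ^ k) * A * B⁻¹) * (B ^ ((2 : ℤ) ^ k))⁻¹ := by rw [h2]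
    _ = _ := by
        rw [neg_add, zpow_add, zpow_neg]
        simp only [mul_assoc, mul_inv_cancel_left]
        have : Commute B⁻¹ (B ^ (2 : ℤ) ^ k)⁻¹ := ((Commute.refl B).zpow_right _).inv_inv
        rw [this.eq]; simp

end Pool.Agent.ACP
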