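import Mathlib
import Pool.Agent.ACP.Basic
import Pool.Agent.ACP.Grp
import Pool.Agent.ACP.TCase

namespace Pool.Agent.ACP

/-- the free group on two letters `x`, `y` -/
abbrev F := FreeGroup (Fin 2)
/-- first letter -/
def x : F := FreeGroup.of 0
/-- second letter -/
def y : F := FreeGroup.of 1

/-- AC-trivializable: AC-equivalent to `(x, y)` -/
def Triv (p : F × F) : Prop := ACEquiv p (x, y)

/-- the endomorphism `x ↦ g`, `y ↦ h` -/
def sub (g h : F) : F →* F := FreeGroup.lift ![g, h]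

@[simp] theorem sub_x (g h : F) : sub g h x = g := by simp [sub, x]
@[simp] theorem sub_y (g h : F) : sub g h y = h := by simp [sub, y]

theorem hom_ext {G : Type} [Group G] {f f' : F →* G} (hx : f x = f' x) (hy : f y = f' y) : f = f' := by
  apply FreeGroup.ext_hom
  intro i
  fin_cases i
  · exact hx
  · exact hy

theorem Triv.of_equiv {p q : F × F} (h : ACEquiv p q) (hq : Triv q) : Triv p := h.trans hq

theorem triv_congr {p q : F × F} (h : ACEquiv p q) : Triv p ↔ Triv q :=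
  ⟨fun hp => h.symm.trans hp, fun hq => h.trans hq⟩

theorem triv_swap (u v : F) : Triv (u, v) ↔ Triv (v, u) := triv_congr (swap u v)

theorem triv_of_map (φ : F →* F) (hφ : ACEquiv (φ x, φ y) (x, y)) {u v : F} (h : Triv (u, v)) :
    Triv (φ u, φ v) := (map φ h).trans hφ

/-- invariance under an automorphism `φ` (inverse `ψ`) -/
theorem triv_map (φ ψ : F →* F) (h : ψ.comp φ = MonoidHom.id F) (hφ : ACEquiv (φ x, φ y) (x, y))
    (hψ : ACEquiv (ψ x, ψ y) (x, y)) (u v : F) : Triv (u, v) ↔ Triv (φ u, φ v) := by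
  refine ⟨triv_of_map φ hφ, fun h' => ?_⟩
  have h1 := triv_of_map ψ hψ h'
  have e : ∀ w, ψ (φ w) = w := fun w => by
    have := DFunLike.congr_fun h w; simpa using this
  rwa [e, e] at h1

/-- `(y^s x^{±1} y^t, y^{±1}) ~ (x, y)` -/
theorem base₁ (s t : ℤ) : ACEquiv (y ^ s * x * y ^ t, y) (x, y) := by
  apply quot₁
  intro H _ f hf
  simp [hf]

theorem base₂ (s t : ℤ) : ACEquiv (y ^ s * x⁻¹ * y ^ t, y) (x, y) := by
  have h1 : ACEquiv (y ^ s * x⁻¹ * y ^ t, y) (x⁻¹, y) := by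
    apply quot₁
    intro H _ f hf
    simp [hf]
  exact h1.trans ((inv₁ _ _).trans (by simpa using ACEquiv.refl (x, y)))

/-- substitution `x ↦ y^s x y^t` -/
theorem triv_sub₁ (s t : ℤ) (u v : F) :
    Triv (u, v) ↔ Triv (sub (y ^ s * x * y ^ t) y u, sub (y ^ s * x * y ^ t) y v) := by
  apply triv_map _ (sub (y ^ (-s) * x * y ^ (-t)) y)
  · apply hom_ext
    · simp only [MonoidHom.comp_apply, sub_x, map_mul, map_zpow, sub_y, MonoidHom.id_apply]; group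
    · simp
  · simpa using base₁ s t
  · simpa using base₁ (-s) (-t)

/-- substitution `x ↦ y^s x⁻¹ y^t` -/
theorem triv_sub₂ (s t : ℤ) (u v : F) :
    Triv (u, v) ↔ Triv (sub (y ^ s * x⁻¹ * y ^ t) y u, sub (y ^ s * x⁻¹ * y ^ t) y v) := by
  apply triv_map _ (sub (y ^ t * x⁻¹ * y ^ s) y)
  · apply hom_ext
    · simp only [MonoidHom.comp_apply, sub_x, map_mul, map_zpow, map_inv, sub_y, MonoidHom.id_apply]
      group
    · simp
  · simpa using base₂ s t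
  · simpa using base₂ t s

/-- substitution `x ↦ x`, `y ↦ y⁻¹` -/
theorem triv_subY (u v : F) : Triv (u, v) ↔ Triv (sub x y⁻¹ u, sub x y⁻¹ v) := by
  have h : ACEquiv (x, y⁻¹) (x, y) := (inv₂ _ _).trans (by simpa using ACEquiv.refl (x, y))
  apply triv_map _ (sub x y⁻¹)
  · apply hom_ext <;> simp
  · simpa using h
  · simpa using h

/-- substitution `x ↦ x⁻¹`, `y ↦ y⁻¹` -/
theorem triv_subXY (u v : F) : Triv (u, v) ↔ Triv (sub x⁻¹ y⁻¹ u, sub x⁻¹ y⁻¹ v) := by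
  have h : ACEquiv (x⁻¹, y⁻¹) (x, y) :=
    (inv₂ _ _).trans ((inv₁ _ _).trans (by simpa using ACEquiv.refl (x, y)))
  apply triv_map _ (sub x⁻¹ y⁻¹)
  · apply hom_ext <;> simp
  · simpa using h
  · simpa using h

/-- the relator `x y^n x⁻¹ y^{-(n+1)}` -/
def bs (n : ℤ) : F := x * y ^ n * x⁻¹ * y ^ (-(n + 1))

/-- the pair `(y^{-m} x y^m x^{-2}, x y^n x⁻¹ y^{-(n+1)})` -/
def U (n m : ℤ) : F × F := (y ^ (-m) * x * y ^ m * x ^ (-2 : ℤ), bs n)

/-- the pair `(y^s x y^t x^{-2}, x y^n x⁻¹ y^{-(n+1)})` -/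
def E (n s t : ℤ) : F × F := (y ^ s * x * y ^ t * x ^ (-2 : ℤ), bs n)

theorem bs_hyp {G : Type} [Group G] {f : F →* G} {n : ℤ} (h : f (bs n) = 1) :
    f x * f y ^ n * (f x)⁻¹ = f y ^ (n + 1) := by
  have : f x * f y ^ n * (f x)⁻¹ = f (bs n) * f y ^ (n + 1) := by
    simp only [bs, map_mul, map_zpow, map_inv]; group
  rw [this, h, one_mul]

theorem E_U (n s t : ℤ) : ACEquiv (E n s t) (U n ((n + 1) * t + n * s)) := by
  apply quot₁
  intro H _ f hf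
  have h := bs_norm (bs_hyp hf) s t
  simp only [map_mul, map_zpow]
  rw [h]

theorem U_mod (n m k : ℤ) : ACEquiv (U n m) (U n (m - n * (n + 1) * k)) := by
  have h1 : ACEquiv (U n m) (y ^ (-((n + 1) ^ 2 * k)) * (y ^ (-m) * x * y ^ m * x ^ (-2 : ℤ)) *
      y ^ ((n + 1) ^ 2 * k), bs n) := by
    have := conj₁ (y ^ (-m) * x * y ^ m * x ^ (-2 : ℤ)) (bs n) (y ^ (-((n + 1) ^ 2 * k)))
    rw [show (y ^ (-((n + 1) ^ 2 * k)))⁻¹ = y ^ ((n + 1) ^ 2 * k) by group] at this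
    exact this
  refine h1.trans ?_
  apply quot₁
  intro H _ f hf
  have h := bs_mod (bs_hyp hf) m k
  simp only [map_mul, map_zpow]
  rw [h]

theorem U_neg (n m : ℤ) : Triv (U n m) ↔ Triv (U n (-m)) := by
  rw [U, triv_subY]
  apply triv_congr
  have e1 : sub x y⁻¹ (y ^ (-m) * x * y ^ m * x ^ (-2 : ℤ)) = y ^ (- -m) * x * y ^ (-m) * x ^ (-2 : ℤ) := by
    simp only [map_mul, map_zpow, sub_x, sub_y, inv_zpow']
  have e2 : sub x y⁻¹ (bs n) = x * y ^ (-n) * x⁻¹ * y ^ (n + 1) := by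
    simp only [bs, map_mul, map_zpow, map_inv, sub_x, sub_y, inv_zpow', neg_neg]
  rw [e1, e2]
  refine (inv₂ _ _).trans ?_
  refine (conj₂ _ _ (y ^ (n + 1))).trans ?_
  have e3 : y ^ (n + 1) * (x * y ^ (-n) * x⁻¹ * y ^ (n + 1))⁻¹ * (y ^ (n + 1))⁻¹ = bs n := by
    unfold bs; group
  rw [e3]
  exact ACEquiv.refl _

theorem U_dual (n m : ℤ) : Triv (U n m) ↔ Triv (U (-n - 1) m) := by
  rw [U, triv_sub₂ 0 0]
  apply triv_congr
  have e1 : sub (y ^ (0 : ℤ) * x⁻¹ * y ^ (0 : ℤ)) y (y ^ (-m) * x * y ^ m * x ^ (-2 : ℤ)) =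
      y ^ (-m) * x⁻¹ * y ^ m * x ^ (2 : ℤ) := by
    simp only [map_mul, map_zpow, sub_x, sub_y]; group
  have e2 : sub (y ^ (0 : ℤ) * x⁻¹ * y ^ (0 : ℤ)) y (bs n) = x⁻¹ * y ^ n * x * y ^ (-(n + 1)) := by
    simp only [bs, map_mul, map_zpow, map_inv, sub_x, sub_y]; group
  rw [e1, e2]
  refine (inv₁ _ _).trans ((conj₁ _ _ (x ^ (2 : ℤ))).trans ?_)
  refine (conj₂ _ _ (y ^ (-n) * x)).trans ?_
  have e3 : x ^ (2 : ℤ) * (y ^ (-m) * x⁻¹ * y ^ m * x ^ (2 : ℤ))⁻¹ * (x ^ (2 : ℤ))⁻¹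
      = y ^ (-m) * x * y ^ m * x ^ (-2 : ℤ) := by group
  have e4 : (y ^ (-n) * x) * (x⁻¹ * y ^ n * x * y ^ (-(n + 1))) * (y ^ (-n) * x)⁻¹ = bs (-n - 1) := by
    unfold bs; group
  rw [e3, e4]
  exact ACEquiv.refl _

end Pool.Agent.ACP
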