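import Mathlib
import Pool.Agent.ACP.MS

namespace Pool.Agent.ACP

theorem fin_xy : ACEquiv (x⁻¹, y⁻¹) (x, y) :=
  (inv₂ _ _).trans ((inv₁ _ _).trans (by simpa using ACEquiv.refl (x, y)))

theorem end_form (n k : ℤ) : Triv (y ^ k * x⁻¹, bs n) := by
  have h1 : ACEquiv (y ^ k * x⁻¹, bs n) (y ^ k * x⁻¹, y⁻¹) := by
    apply quot₂
    intro H _ f hf
    have hx : f x = f y ^ k := by
      have : f x = (f (y ^ k * x⁻¹))⁻¹ * f y ^ k := by
        simp only [map_mul, map_zpow, map_inv]; group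
      rw [this, hf]; simp
    simp only [bs, map_mul, map_zpow, map_inv, hx]; group
  have h2 : ACEquiv (y ^ k * x⁻¹, y⁻¹) (x⁻¹, y⁻¹) := by
    apply quot₁
    intro H _ f hf
    have hy : f y = 1 := by simpa using hf
    simp [hy]
  exact h1.trans (h2.trans fin_xy)

theorem U_n (n k : ℤ) : Triv (U n (n * k)) := by
  refine Triv.of_equiv ?_ (end_form n k)
  apply quot₁
  intro H _ f hf
  have h := case_n (k := k) (bs_hyp hf)
  simp only [map_mul, map_zpow, map_inv]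
  exact h

theorem U_n1 (n k : ℤ) : Triv (U n ((n + 1) * k)) := by
  refine Triv.of_equiv ?_ (end_form n k)
  refine (conj₁ _ _ (x ^ (-2 : ℤ))).trans ?_
  have h1 : ACEquiv (x ^ (-2 : ℤ) * (y ^ (-((n + 1) * k)) * x * y ^ ((n + 1) * k) * x ^ (-2 : ℤ)) *
      (x ^ (-2 : ℤ))⁻¹, bs n) (x⁻¹ * y ^ k, bs n) := by
    apply quot₁
    intro H _ f hf
    have h := case_n1 (k := k) (bs_hyp hf)
    simp only [map_mul, map_zpow, map_inv]
    exact h
  refine h1.trans ((conj₁ _ _ x).trans ?_)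
  rw [show x * (x⁻¹ * y ^ k) * x⁻¹ = y ^ k * x⁻¹ by group]
  exact ACEquiv.refl _

theorem fin_pow (N m : ℤ) : Triv (y ^ (-m) * x * y ^ m * x ^ (-2 : ℤ), x ^ N * y⁻¹) := by
  have h1 : ACEquiv (y ^ (-m) * x * y ^ m * x ^ (-2 : ℤ), x ^ N * y⁻¹) (x⁻¹, x ^ N * y⁻¹) := by
    apply quot₁
    intro H _ f hf
    have hy : f y = f x ^ N := by
      have : f y = (f (x ^ N * y⁻¹))⁻¹ * f x ^ N := by
        simp only [map_mul, map_zpow, map_inv]; group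
      rw [this, hf]; simp
    simp only [map_mul, map_zpow, map_inv, hy]; group
  have h2 : ACEquiv (x⁻¹, x ^ N * y⁻¹) (x⁻¹, y⁻¹) := by
    apply quot₂
    intro H _ f hf
    have hx : f x = 1 := by simpa using hf
    simp [hx]
  exact h1.trans (h2.trans fin_xy)

theorem U_dvd_n (m : ℤ) (k : ℕ) : Triv (U (m * k) m) := by
  refine Triv.of_equiv ?_ (fin_pow ((2 : ℤ) ^ k - 1) m)
  refine (conj₂ _ _ (y ^ (-(m * k)))).trans ?_
  apply quot₂
  intro H _ f hf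
  have h := bs2_pow (a := f y) (b := f x) (m := m) (by simpa only [map_mul, map_zpow] using hf) k
  have h2 : f x ^ ((2 : ℤ) ^ k - 1) = f x ^ ((2 : ℤ) ^ k) * (f x)⁻¹ := by rw [zpow_sub_one]
  simp only [bs, map_mul, map_zpow, map_inv]
  rw [h2, ← h]
  group

theorem U_dvd_n1 (m : ℤ) (k : ℕ) : Triv (U (m * k - 1) m) := by
  refine Triv.of_equiv ?_ (fin_pow ((2 : ℤ) ^ k - 1) m)
  refine (conj₂ _ _ (x⁻¹ * y ^ (-(m * k)))).trans ?_
  apply quot₂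
  intro H _ f hf
  have h := bs2_pow (a := f y) (b := f x) (m := m) (by simpa only [map_mul, map_zpow] using hf) k
  have h2 : f x ^ ((2 : ℤ) ^ k - 1) = (f x)⁻¹ * f x ^ ((2 : ℤ) ^ k) := by
    rw [show (2 : ℤ) ^ k - 1 = -1 + (2 : ℤ) ^ k by ring, zpow_add]; simp
  simp only [bs, map_mul, map_zpow, map_inv]
  rw [h2, ← h]
  group

theorem U_mod' {n m m' : ℤ} (h : m' ≡ m [ZMOD n * (n + 1)]) : Triv (U n m) ↔ Triv (U n m') := by
  obtain ⟨k, hk⟩ := h.dvd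
  have := U_mod n m k
  rw [← hk, sub_sub_cancel] at this
  exact triv_congr this

theorem U_class {n m m' : ℤ} (h : m' ≡ m [ZMOD n * (n + 1)] ∨ m' ≡ -m [ZMOD n * (n + 1)]) :
    Triv (U n m) ↔ Triv (U n m') := by
  rcases h with h | h
  · exact U_mod' h
  · rw [U_neg n m]; exact U_mod' h

theorem U_dvd {n m : ℤ} (h : m ∣ n) : Triv (U n m) := by
  obtain ⟨c, rfl⟩ := h
  rcases le_total 0 c with hc | hc
  · obtain ⟨k, rfl⟩ := Int.eq_ofNat_of_zero_le hc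
    exact U_dvd_n m k
  · obtain ⟨k, hk⟩ := Int.eq_ofNat_of_zero_le (neg_nonneg.mpr hc)
    rw [U_neg]
    have := U_dvd_n (-m) k
    rwa [← hk, neg_mul_neg] at this

theorem U_dvd1 {n m : ℤ} (h : m ∣ n + 1) : Triv (U n m) := by
  obtain ⟨c, hc'⟩ := h
  obtain rfl : n = m * c - 1 := by linarith
  rcases le_total 0 c with hc | hc
  · obtain ⟨k, rfl⟩ := Int.eq_ofNat_of_zero_le hc
    exact U_dvd_n1 m k
  · obtain ⟨k, hk⟩ := Int.eq_ofNat_of_zero_le (neg_nonneg.mpr hc)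
    rw [U_neg]
    have := U_dvd_n1 (-m) k
    rwa [← hk, neg_mul_neg] at this

/-- the four divisibility cases -/
theorem U_triv {n m m' : ℤ} (h : m' ≡ m [ZMOD n * (n + 1)] ∨ m' ≡ -m [ZMOD n * (n + 1)])
    (hd : n ∣ m' ∨ n + 1 ∣ m' ∨ m' ∣ n ∨ m' ∣ n + 1) : Triv (U n m) := by
  rw [U_class h]
  rcases hd with ⟨k, rfl⟩ | ⟨k, rfl⟩ | hd | hd
  · exact U_n n k
  · exact U_n1 n k
  · exact U_dvd hd
  · exact U_dvd1 hd

/-! ### the T case -/

theorem zpow_m2 {G : Type} [Group G] (g : G) : g ^ (-2 : ℤ) = g⁻¹ * g⁻¹ := by group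

/-- the g-form -/
def Gf (a b : ℤ) : F × F := (x * y ^ (1 - b) * x * y ^ a * x⁻¹ * y ^ (-a), y ^ (2 * b - 1) * x ^ (-2 : ℤ))

/-- the T-form -/
def T (a b : ℤ) : F × F := (x ^ (2 : ℤ) * y ^ a * x⁻¹ * y ^ (-a), y ^ b * x⁻¹ * y ^ (1 - b) * x⁻¹)

theorem E_G (a b : ℤ) : Triv (E (2 * b - 1) b a) ↔ Triv (Gf a b) := by
  have h1 : ACEquiv (E (2 * b - 1) b a)
      (y ^ b * x * y ^ a * x ^ (-2 : ℤ), y ^ (2 * b - 1) * (x * y ^ (-a)) ^ (-2 : ℤ)) := by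
    refine (conj₂ _ _ x⁻¹).trans ?_
    apply quot₂
    intro H _ f hf
    have h := t_one (A := f y) (B := f x) (a := a) (b := b)
      (by simpa only [map_mul, map_zpow] using hf)
    simp only [bs, map_mul, map_zpow, map_inv, inv_inv]
    rw [← h]
    simp
  rw [triv_congr h1, triv_sub₁ 0 a]
  apply triv_congr
  have e1 : sub (y ^ (0 : ℤ) * x * y ^ a) y (y ^ b * x * y ^ a * x ^ (-2 : ℤ)) =
      y ^ b * x * y ^ a * x⁻¹ * y ^ (-a) * x⁻¹ := by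
    simp only [zpow_m2, map_mul, map_zpow, map_inv, sub_x, sub_y]; group
  have e2 : sub (y ^ (0 : ℤ) * x * y ^ a) y (y ^ (2 * b - 1) * (x * y ^ (-a)) ^ (-2 : ℤ)) =
      y ^ (2 * b - 1) * x ^ (-2 : ℤ) := by
    simp only [map_mul, map_zpow, sub_x, sub_y]; group
  rw [e1, e2]
  refine (conj₁ _ _ x⁻¹).trans ?_
  apply quot₁
  intro H _ f hf
  have h := t_two (A := f y) (B := f x) (a := a) (b := b)
    (by simpa only [map_mul, map_zpow] using hf)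
  simp only [map_mul, map_zpow, map_inv, inv_inv]
  exact h

theorem G_T (a b : ℤ) : Triv (Gf a b) ↔ Triv (T a b) := by
  rw [Gf, triv_sub₁ 0 (b - 1)]
  have e1 : sub (y ^ (0 : ℤ) * x * y ^ (b - 1)) y (x * y ^ (1 - b) * x * y ^ a * x⁻¹ * y ^ (-a)) =
      x ^ (2 : ℤ) * y ^ a * x⁻¹ * y ^ (-a) := by
    simp only [map_mul, map_zpow, map_inv, sub_x, sub_y, zpow_two]; group
  have e2 : sub (y ^ (0 : ℤ) * x * y ^ (b - 1)) y (y ^ (2 * b - 1) * x ^ (-2 : ℤ)) =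
      y ^ b * x⁻¹ * y ^ (1 - b) * x⁻¹ := by
    simp only [zpow_m2, map_mul, map_zpow, map_inv, sub_x, sub_y]; group
  rw [e1, e2]
  rfl

theorem G_neg (a b : ℤ) : Triv (Gf a b) ↔ Triv (Gf (-a) b) := by
  rw [Gf, triv_subXY]
  apply triv_congr
  have e1 : sub x⁻¹ y⁻¹ (x * y ^ (1 - b) * x * y ^ a * x⁻¹ * y ^ (-a)) =
      x⁻¹ * y ^ (-(1 - b)) * x⁻¹ * y ^ (-a) * x * y ^ a := by
    simp only [map_mul, map_zpow, map_inv, sub_x, sub_y]; group
  have e2 : sub x⁻¹ y⁻¹ (y ^ (2 * b - 1) * x ^ (-2 : ℤ)) = y ^ (-(2 * b - 1)) * x ^ (2 : ℤ) := by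
    simp only [map_mul, map_zpow, sub_x, sub_y]; group
  rw [e1, e2]
  refine (inv₁ _ _).trans ((conj₁ _ _ (y ^ (-a) * x⁻¹ * y ^ a)⁻¹).trans ?_)
  refine (inv₂ _ _).trans ((conj₂ _ _ (x ^ (2 : ℤ))).trans ?_)
  have e3 : (y ^ (-a) * x⁻¹ * y ^ a)⁻¹ * (x⁻¹ * y ^ (-(1 - b)) * x⁻¹ * y ^ (-a) * x * y ^ a)⁻¹ *
      ((y ^ (-a) * x⁻¹ * y ^ a)⁻¹)⁻¹ = x * y ^ (1 - b) * x * y ^ (-a) * x⁻¹ * y ^ (- -a) := by
    group
  have e4 : x ^ (2 : ℤ) * (y ^ (-(2 * b - 1)) * x ^ (2 : ℤ))⁻¹ * (x ^ (2 : ℤ))⁻¹ =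
      y ^ (2 * b - 1) * x ^ (-2 : ℤ) := by group
  rw [e3, e4]
  exact ACEquiv.refl _

theorem T_shift (a b l : ℤ) : Triv (T a b) ↔ Triv (T (a + (2 * b - 1) * l) b) := by
  apply triv_congr
  apply quot₁
  intro H _ f hf
  have h := t_shift (A := f y) (B := f x) (a := a) (b := b)
    (by simpa only [map_mul, map_zpow, map_inv] using hf) l
  simp only [map_mul, map_zpow, map_inv]
  exact h

theorem T_fin (a N : ℤ) : Triv (x ^ (2 : ℤ) * y ^ a * x⁻¹ * y ^ (-a), y * x ^ (-N)) := by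
  have h1 : ACEquiv (x ^ (2 : ℤ) * y ^ a * x⁻¹ * y ^ (-a), y * x ^ (-N)) (x, y * x ^ (-N)) := by
    apply quot₁
    intro H _ f hf
    have hy : f y = f x ^ N := by
      have : f y = f (y * x ^ (-N)) * f x ^ N := by
        simp only [map_mul, map_zpow]; group
      rw [this, hf, one_mul]
    simp only [map_mul, map_zpow, map_inv, hy]; group
  have h2 : ACEquiv (x, y * x ^ (-N)) (x, y) := by
    apply quot₂
    intro H _ f hf
    simp [hf]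
  exact h1.trans h2

theorem T_case1 (a b : ℤ) (k : ℕ) (hk : b - 1 = a * k) : Triv (T a b) := by
  refine Triv.of_equiv ?_ (T_fin a ((2 : ℤ) ^ k + 1))
  apply quot₂
  intro H _ f hf
  have h := t_case1 (A := f y) (B := f x) (a := a) (b := b)
    (by simpa only [map_mul, map_zpow, map_inv] using hf) k hk
  simp only [map_mul, map_zpow, map_inv]
  exact h

theorem T_case2 (a b : ℤ) (k : ℕ) (hk : b = a * k) : Triv (T a b) := by
  refine Triv.of_equiv ?_ (T_fin a ((2 : ℤ) ^ k + 1))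
  refine (conj₂ _ _ (x ^ ((2 : ℤ) ^ k))).trans ?_
  apply quot₂
  intro H _ f hf
  have h := t_case2 (A := f y) (B := f x) (a := a) (b := b)
    (by simpa only [map_mul, map_zpow, map_inv] using hf) k hk
  simp only [map_mul, map_zpow, map_inv]
  exact h

theorem G_triv {a b a' : ℤ} (h : a' ≡ a [ZMOD 2 * b - 1]) (hd : a' ∣ b ∨ a' ∣ b - 1) :
    Triv (Gf a b) := by
  have h0 : Triv (Gf a' b) := by
    rcases hd with ⟨c, hc⟩ | ⟨c, hc⟩
    · rcases le_total 0 c with h0 | h0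
      · obtain ⟨k, rfl⟩ := Int.eq_ofNat_of_zero_le h0
        rw [G_T]; exact T_case2 _ _ k hc
      · obtain ⟨k, hk⟩ := Int.eq_ofNat_of_zero_le (neg_nonneg.mpr h0)
        rw [G_neg, G_T]; exact T_case2 _ _ k (by rw [← hk, neg_mul_neg]; exact hc)
    · rcases le_total 0 c with h0 | h0
      · obtain ⟨k, rfl⟩ := Int.eq_ofNat_of_zero_le h0
        rw [G_T]; exact T_case1 _ _ k hc
      · obtain ⟨k, hk⟩ := Int.eq_ofNat_of_zero_le (neg_nonneg.mpr h0)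
        rw [G_neg, G_T]; exact T_case1 _ _ k (by rw [← hk, neg_mul_neg]; exact hc)
  obtain ⟨l, hl⟩ := h.dvd
  have e : a = a' + (2 * b - 1) * l := by linarith
  rw [e, G_T, ← T_shift, ← G_T]
  exact h0

theorem U_T {b m a : ℤ} (h1 : m ≡ b [ZMOD 2 * b]) (h2 : m ≡ a [ZMOD 2 * b - 1])
    (hd : a ∣ b ∨ a ∣ b - 1) : Triv (U (2 * b - 1) m) := by
  have h3 : Triv (U (2 * b - 1) ((2 * b - 1 + 1) * m + (2 * b - 1) * b)) := by
    rw [← triv_congr (E_U (2 * b - 1) b m), E_G]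
    exact G_triv h2.symm hd
  refine (U_mod' ?_).mp h3
  -- m ≡ 2 b m + (2 b - 1) b
  obtain ⟨k, hk⟩ := h1.dvd
  rw [Int.modEq_iff_dvd]
  refine ⟨1 - k, ?_⟩
  have : m = b - 2 * b * k := by linarith
  subst this
  ring

end Pool.Agent.ACP
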