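import Mathlib
import Pool.Agent.ACP.MS
import Pool.Agent.ACP.Triv

namespace Pool.Agent.ACP

/-- the relator pair of Gordon's presentation
`⟨x, y | y^(-ν) x^μ y^ν = x^(μ+1), x^(-κ) y^π x^κ = y^(π+1)⟩` -/
def Gordon (m n p k : ℤ) : F × F :=
  (y ^ (-n) * x ^ m * y ^ n * x ^ (-(m + 1)), x ^ (-k) * y ^ p * x ^ k * y ^ (-(p + 1)))

section grp
variable {H : Type} [Group H] {a b : H}

/-- `b^(-n) a^(m t) b^n = a^((m+1) t)` -/
theorem gd_pow {m n : ℤ} (h : b ^ (-n) * a ^ m * b ^ n * a ^ (-(m + 1)) = 1) (t : ℤ) :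
    b ^ (-n) * a ^ (m * t) = a ^ ((m + 1) * t) * b ^ (-n) := by
  have h0 : b ^ (-n) * a ^ m = a ^ (m + 1) * b ^ (-n) := by
    have : b ^ (-n) * a ^ m = (b ^ (-n) * a ^ m * b ^ n * a ^ (-(m + 1))) * (a ^ (m + 1) * b ^ (-n)) := by
      group
    rw [this, h, one_mul]
  have h1 : SemiconjBy (b ^ (-n)) (a ^ m) (a ^ (m + 1)) := h0
  have h2 := h1.zpow_right t
  rw [← zpow_mul, ← zpow_mul] at h2
  exact h2

/-- `b^(-k n) a^(m^k t) b^(k n) = a^((m+1)^k t)` for `k : ℕ` -/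
theorem gd_powk {m n : ℤ} (h : b ^ (-n) * a ^ m * b ^ n * a ^ (-(m + 1)) = 1) (k : ℕ) (t : ℤ) :
    b ^ (-(k * n)) * a ^ (m ^ k * t) = a ^ ((m + 1) ^ k * t) * b ^ (-(k * n)) := by
  induction k generalizing t with
  | zero => simp
  | succ k ih =>
    have h1 := gd_pow h (m ^ k * t)
    have h2 := ih ((m + 1) * t)
    push_cast
    calc b ^ (-(((k : ℤ) + 1) * n)) * a ^ (m ^ (k + 1) * t)
        = b ^ (-((k : ℤ) * n)) * (b ^ (-n) * a ^ (m * (m ^ k * t))) := by
          rw [← mul_assoc, ← zpow_add]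
          congr 2
          · ring
          · ring
      _ = b ^ (-((k : ℤ) * n)) * (a ^ ((m + 1) * (m ^ k * t)) * b ^ (-n)) := by rw [h1]
      _ = (b ^ (-((k : ℤ) * n)) * a ^ (m ^ k * ((m + 1) * t))) * b ^ (-n) := by
          rw [mul_assoc]; congr 3; ring
      _ = (a ^ ((m + 1) ^ k * ((m + 1) * t)) * b ^ (-((k : ℤ) * n))) * b ^ (-n) := by rw [h2]
      _ = a ^ ((m + 1) ^ (k + 1) * t) * b ^ (-(((k : ℤ) + 1) * n)) := by
          rw [mul_assoc, ← zpow_add]
          congr 2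
          · ring
          · ring

/-- the inverse form -/
theorem gd_powk' {m n : ℤ} (h : b ^ (-n) * a ^ m * b ^ n * a ^ (-(m + 1)) = 1) (k : ℕ) (t : ℤ) :
    b ^ (k * n) * a ^ ((m + 1) ^ k * t) = a ^ (m ^ k * t) * b ^ (k * n) := by
  have h1 := gd_powk h k t
  have h2 : b ^ (-(k * n)) = (b ^ (k * n))⁻¹ := by rw [zpow_neg]
  rw [h2] at h1
  have : b ^ ((k : ℤ) * n) * ((b ^ ((k : ℤ) * n))⁻¹ * a ^ (m ^ k * t)) * b ^ ((k : ℤ) * n) =
      b ^ ((k : ℤ) * n) * (a ^ ((m + 1) ^ k * t) * (b ^ ((k : ℤ) * n))⁻¹) * b ^ ((k : ℤ) * n) := by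
    rw [h1]
  simpa [mul_assoc] using this.symm

end grp

theorem gd_hyp {G : Type} [Group G] {f : F →* G} {m n : ℤ}
    (h : f (y ^ (-n) * x ^ m * y ^ n * x ^ (-(m + 1))) = 1) :
    f y ^ (-n) * f x ^ m * f y ^ n * f x ^ (-(m + 1)) = 1 := by
  simpa only [map_mul, map_zpow] using h

/-- final form -/
theorem gd_fin (m n N : ℤ) : Triv (y ^ (-n) * x ^ m * y ^ n * x ^ (-(m + 1)), x ^ N * y⁻¹) := by
  have h1 : ACEquiv (y ^ (-n) * x ^ m * y ^ n * x ^ (-(m + 1)), x ^ N * y⁻¹) (x⁻¹, x ^ N * y⁻¹) := by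
    apply quot₁
    intro H _ f hf
    have hy : f y = f x ^ N := by
      have : f y = (f (x ^ N * y⁻¹))⁻¹ * f x ^ N := by
        simp only [map_mul, map_zpow, map_inv]; group
      rw [this, hf]; simp
    simp only [map_mul, map_zpow, map_inv, hy]
    rw [← zpow_mul, ← zpow_mul, ← zpow_add, ← zpow_add, ← zpow_add, ← zpow_neg_one]
    congr 1; ring
  have h2 : ACEquiv (x⁻¹, x ^ N * y⁻¹) (x⁻¹, y⁻¹) := by
    apply quot₂
    intro H _ f hf
    have hx : f x = 1 := by simpa using hf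
    simp [hx]
  exact h1.trans (h2.trans fin_xy)

/-- exchange of the roles of `x` and `y` -/
theorem gordon_swap (m n p k : ℤ) : Triv (Gordon m n p k) ↔ Triv (Gordon p k m n) := by
  have h : ACEquiv (y, x) (x, y) := swap _ _
  rw [Gordon, triv_map (sub y x) (sub y x) (by apply hom_ext <;> simp) (by simpa using h)
    (by simpa using h), triv_swap]
  have e1 : sub y x (y ^ (-n) * x ^ m * y ^ n * x ^ (-(m + 1))) =
      x ^ (-n) * y ^ m * x ^ n * y ^ (-(m + 1)) := by simp only [map_mul, map_zpow, sub_x, sub_y]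
  have e2 : sub y x (x ^ (-k) * y ^ p * x ^ k * y ^ (-(p + 1))) =
      y ^ (-k) * x ^ p * y ^ k * x ^ (-(p + 1)) := by simp only [map_mul, map_zpow, sub_x, sub_y]
  rw [e1, e2]
  rfl

/-- `κ = μ t` and `κ = (μ + 1) t` -/
theorem gordon_shift (m n p t : ℤ) : Triv (Gordon m n p (m * t)) ↔ Triv (Gordon m n p ((m + 1) * t)) := by
  apply triv_congr
  refine (conj₂ _ _ (y ^ (-n))).trans ?_
  apply quot₂
  intro H _ f hf
  have h := gd_pow (gd_hyp hf) t
  have h' : f y ^ (-n) * f x ^ (-(m * t)) = f x ^ (-((m + 1) * t)) * f y ^ (-n) := by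
    have := gd_pow (gd_hyp hf) (-t)
    rw [show m * -t = -(m * t) by ring, show (m + 1) * -t = -((m + 1) * t) by ring] at this
    exact this
  simp only [map_mul, map_zpow, map_inv]
  calc f y ^ (-n) * (f x ^ (-(m * t)) * f y ^ p * f x ^ (m * t) * f y ^ (-(p + 1))) * (f y ^ (-n))⁻¹
      = (f y ^ (-n) * f x ^ (-(m * t))) * f y ^ p * f x ^ (m * t) * f y ^ (-(p + 1)) * f y ^ n := by
        group
    _ = f x ^ (-((m + 1) * t)) * f y ^ (-n) * f y ^ p * f x ^ (m * t) * f y ^ (-(p + 1)) * f y ^ n := by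
        rw [h']
    _ = f x ^ (-((m + 1) * t)) * f y ^ p * (f y ^ (-n) * f x ^ (m * t)) * f y ^ (-(p + 1)) * f y ^ n := by
        group
    _ = f x ^ (-((m + 1) * t)) * f y ^ p * (f x ^ ((m + 1) * t) * f y ^ (-n)) * f y ^ (-(p + 1)) * f y ^ n := by
        rw [h]
    _ = _ := by group

theorem gordon_shift_pow (m n p c : ℤ) (i j : ℕ) :
    Triv (Gordon m n p (m ^ (i + j) * c)) ↔ Triv (Gordon m n p (m ^ i * (m + 1) ^ j * c)) := by
  induction j generalizing i with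
  | zero => simp
  | succ j ih =>
    have h1 := ih (i + 1)
    rw [show i + 1 + j = i + (j + 1) by ring] at h1
    rw [h1]
    have h2 := gordon_shift m n p (m ^ i * (m + 1) ^ j * c)
    rw [show m * (m ^ i * (m + 1) ^ j * c) = m ^ (i + 1) * (m + 1) ^ j * c by ring,
      show (m + 1) * (m ^ i * (m + 1) ^ j * c) = m ^ i * (m + 1) ^ (j + 1) * c by ring] at h2
    exact h2

/-- the case `k ν = π` or `π + 1`, `κ = μ^k c`, `k : ℕ` -/
theorem gordon_pos (m n p c : ℤ) (k : ℕ) (h : k * n = p ∨ k * n = p + 1) :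
    Triv (Gordon m n p (m ^ k * c)) := by
  refine Triv.of_equiv ?_ (gd_fin m n (m ^ k * c - (m + 1) ^ k * c))
  rcases h with h | h
  · refine (conj₂ _ _ (y ^ (-p))).trans ?_
    apply quot₂
    intro H _ f hf
    have h1 := gd_powk (gd_hyp hf) k (-c)
    rw [h, show m ^ k * -c = -(m ^ k * c) by ring, show (m + 1) ^ k * -c = -((m + 1) ^ k * c) by ring]
      at h1
    simp only [map_mul, map_zpow, map_inv]
    calc f y ^ (-p) * (f x ^ (-(m ^ k * c)) * f y ^ p * f x ^ (m ^ k * c) * f y ^ (-(p + 1))) *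
          (f y ^ (-p))⁻¹
        = (f y ^ (-p) * f x ^ (-(m ^ k * c))) * f y ^ p * f x ^ (m ^ k * c) * (f y)⁻¹ := by
          rw [neg_add]; simp only [zpow_add, zpow_neg, zpow_one]; group
      _ = f x ^ (-((m + 1) ^ k * c)) * f y ^ (-p) * f y ^ p * f x ^ (m ^ k * c) * (f y)⁻¹ := by rw [h1]
      _ = (f x ^ (-((m + 1) ^ k * c)) * f x ^ (m ^ k * c)) * (f y)⁻¹ := by group
      _ = _ := by rw [← zpow_add]; congr 2; ring
  · refine (conj₂ _ _ (x ^ (m ^ k * c) * y ^ (-(p + 1)))).trans ?_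
    apply quot₂
    intro H _ f hf
    have h1 := gd_powk (gd_hyp hf) k (-c)
    rw [h, show m ^ k * -c = -(m ^ k * c) by ring, show (m + 1) ^ k * -c = -((m + 1) ^ k * c) by ring]
      at h1
    simp only [map_mul, map_zpow, map_inv]
    calc f x ^ (m ^ k * c) * f y ^ (-(p + 1)) * (f x ^ (-(m ^ k * c)) * f y ^ p * f x ^ (m ^ k * c) *
          f y ^ (-(p + 1))) * (f x ^ (m ^ k * c) * f y ^ (-(p + 1)))⁻¹
        = f x ^ (m ^ k * c) * (f y ^ (-(p + 1)) * f x ^ (-(m ^ k * c))) * f y ^ p := by group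
      _ = f x ^ (m ^ k * c) * (f x ^ (-((m + 1) ^ k * c)) * f y ^ (-(p + 1))) * f y ^ p := by rw [h1]
      _ = (f x ^ (m ^ k * c) * f x ^ (-((m + 1) ^ k * c))) * (f y ^ (-(p + 1)) * f y ^ p) := by
          simp only [mul_assoc]
      _ = _ := by
          rw [← zpow_add, ← zpow_add, ← sub_eq_add_neg, show -(p + 1) + p = -1 by ring, zpow_neg_one]

/-- the case `-k ν = π` or `π + 1`, `κ = (μ + 1)^k c`, `k : ℕ` -/
theorem gordon_neg (m n p c : ℤ) (k : ℕ) (h : -(k * n) = p ∨ -(k * n) = p + 1) :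
    Triv (Gordon m n p ((m + 1) ^ k * c)) := by
  refine Triv.of_equiv ?_ (gd_fin m n ((m + 1) ^ k * c - m ^ k * c))
  rcases h with h | h
  · refine (conj₂ _ _ (y ^ (-p))).trans ?_
    apply quot₂
    intro H _ f hf
    have h1 := gd_powk' (gd_hyp hf) k (-c)
    rw [show (k : ℤ) * n = -p by linarith, show m ^ k * -c = -(m ^ k * c) by ring,
      show (m + 1) ^ k * -c = -((m + 1) ^ k * c) by ring] at h1
    simp only [map_mul, map_zpow, map_inv]
    calc f y ^ (-p) * (f x ^ (-((m + 1) ^ k * c)) * f y ^ p * f x ^ ((m + 1) ^ k * c) *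
          f y ^ (-(p + 1))) * (f y ^ (-p))⁻¹
        = (f y ^ (-p) * f x ^ (-((m + 1) ^ k * c))) * f y ^ p * f x ^ ((m + 1) ^ k * c) * (f y)⁻¹ := by
          rw [neg_add]; simp only [zpow_add, zpow_neg, zpow_one]; group
      _ = f x ^ (-(m ^ k * c)) * f y ^ (-p) * f y ^ p * f x ^ ((m + 1) ^ k * c) * (f y)⁻¹ := by rw [h1]
      _ = (f x ^ (-(m ^ k * c)) * f x ^ ((m + 1) ^ k * c)) * (f y)⁻¹ := by group
      _ = _ := by rw [← zpow_add]; congr 2; ring
  · refine (conj₂ _ _ (x ^ ((m + 1) ^ k * c) * y ^ (-(p + 1)))).trans ?_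
    apply quot₂
    intro H _ f hf
    have h1 := gd_powk' (gd_hyp hf) k (-c)
    rw [show (k : ℤ) * n = -(p + 1) by linarith, show m ^ k * -c = -(m ^ k * c) by ring,
      show (m + 1) ^ k * -c = -((m + 1) ^ k * c) by ring] at h1
    simp only [map_mul, map_zpow, map_inv]
    calc f x ^ ((m + 1) ^ k * c) * f y ^ (-(p + 1)) * (f x ^ (-((m + 1) ^ k * c)) * f y ^ p *
          f x ^ ((m + 1) ^ k * c) * f y ^ (-(p + 1))) * (f x ^ ((m + 1) ^ k * c) * f y ^ (-(p + 1)))⁻¹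
        = f x ^ ((m + 1) ^ k * c) * (f y ^ (-(p + 1)) * f x ^ (-((m + 1) ^ k * c))) * f y ^ p := by
          group
      _ = f x ^ ((m + 1) ^ k * c) * (f x ^ (-(m ^ k * c)) * f y ^ (-(p + 1))) * f y ^ p := by rw [h1]
      _ = (f x ^ ((m + 1) ^ k * c) * f x ^ (-(m ^ k * c))) * (f y ^ (-(p + 1)) * f y ^ p) := by
          simp only [mul_assoc]
      _ = _ := by
          rw [← zpow_add, ← zpow_add, ← sub_eq_add_neg, show -(p + 1) + p = -1 by ring, zpow_neg_one]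

/-- the main family -/
theorem gordon_triv (m n p k c : ℤ) (i j : ℕ) (hk : k.natAbs = i + j)
    (h : k * n = p ∨ k * n = p + 1) : Triv (Gordon m n p (m ^ i * (m + 1) ^ j * c)) := by
  rcases le_total 0 k with h0 | h0
  · obtain ⟨k', rfl⟩ := Int.eq_ofNat_of_zero_le h0
    rw [Int.natAbs_natCast] at hk
    subst hk
    rw [← gordon_shift_pow]
    exact gordon_pos m n p c (i + j) h
  · obtain ⟨k', hk'⟩ := Int.eq_ofNat_of_zero_le (neg_nonneg.mpr h0)
    obtain rfl : k = -(k' : ℤ) := by linarith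
    rw [Int.natAbs_neg, Int.natAbs_natCast] at hk
    subst hk
    have h1 := gordon_shift_pow m n p c i j
    rw [← h1]
    have h2 := gordon_shift_pow m n p c 0 (i + j)
    rw [zero_add, pow_zero, one_mul] at h2
    rw [h2]
    exact gordon_neg m n p c (i + j) (by
      rcases h with h | h
      · left; rw [← h]; ring
      · right; rw [← h]; ring)

end Pool.Agent.ACP
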